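import Pool.Agent.helper82.LEQ.Spec

/-!
# Row AC: the components (MP_e82547_al)
-/

set_option autoImplicit false

namespace LEQ

open scoped BigOperators
open QS (Lef EAb)

section ACsec

variable {G : Type} [Group G] {ι : Type} {L : ι → Subgroup G} {p : ℕ}

theorem AC_uniq (hF : Fam L p) {i : ι} {g a b : G} (ha : Act L i g a) (hb : Act L i g b) :
    a = b := by
  have h1 : b⁻¹ * a ∈ L i := (L i).mul_mem ((L i).inv_mem hb.1) ha.1
  have h2 : ∀ y ∈ L i, b⁻¹ * a * y = y * (b⁻¹ * a) := by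
    intro y hy
    have h3 : a * y * a⁻¹ = b * y * b⁻¹ := (ha.2 y hy).symm.trans (hb.2 y hy)
    have h4 : a * y = b * y * b⁻¹ * a := by
      rw [← h3]; group
    rw [mul_assoc, h4]
    group
  have h5 := hF.cent i _ h1 h2
  exact (inv_mul_eq_one.1 h5).symm

theorem AC_act {i : ι} {g : G} (h : ∃ a, Act L i g a) : Act L i g (pr L i g) := by
  unfold pr
  rw [dif_pos h]
  exact h.choose_spec

theorem AC_eq (hF : Fam L p) {i : ι} {g a : G} (ha : Act L i g a) : pr L i g = a :=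
  AC_uniq hF (AC_act ⟨a, ha⟩) ha

theorem AC_conj {i j : ι} {x : G} (hx : ∀ y : G, y ∈ L i ↔ x * y * x⁻¹ ∈ L j) {g a : G}
    (ha : Act L i g a) : Act L j (x * g * x⁻¹) (x * a * x⁻¹) := by
  refine ⟨(hx a).1 ha.1, fun z hz => ?_⟩
  have e : x * (x⁻¹ * z * x) * x⁻¹ = z := by group
  have hy : x⁻¹ * z * x ∈ L i := (hx _).2 (by rwa [e])
  have h1 := ha.2 _ hy
  have h2 : x * g * x⁻¹ * z * (x * g * x⁻¹)⁻¹ = x * (g * (x⁻¹ * z * x) * g⁻¹) * x⁻¹ := by group
  rw [h2, h1]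
  group

theorem AC_perm (hF : Fam L p) (x : G) (k : ι) :
    ∃ j, ∀ y : G, y ∈ L j ↔ x * y * x⁻¹ ∈ L k := by
  obtain ⟨j, hj⟩ := hF.perm x⁻¹ k
  refine ⟨j, fun y => ?_⟩
  rw [hj (x * y * x⁻¹)]
  have e : x⁻¹ * (x * y * x⁻¹) * x⁻¹⁻¹ = y := by group
  rw [e]

end ACsec

/-- The components. -/
theorem AC : AC_stmt := by
  intro G _ _ p _ ι _ L hF
  have h1 : ∀ i, ∀ g ∈ Np L, Act L i g (pr L i g) := fun i g hg => AC_act (hg i)
  have h2 : ∀ i, ∀ g a : G, Act L i g a → pr L i g = a := fun i g a ha => AC_eq hF ha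
  refine ⟨h1, h2, ?_, ?_, ?_, ?_, ?_⟩
  · intro i g hg h hh
    refine h2 i _ _ ⟨(L i).mul_mem (h1 i g hg).1 (h1 i h hh).1, fun z hz => ?_⟩
    have hb := h1 i h hh
    have ha := h1 i g hg
    have h3 : pr L i h * z * (pr L i h)⁻¹ ∈ L i :=
      (L i).mul_mem ((L i).mul_mem hb.1 hz) ((L i).inv_mem hb.1)
    have h4 : g * h * z * (g * h)⁻¹ = g * (h * z * h⁻¹) * g⁻¹ := by group
    rw [h4, hb.2 z hz, ha.2 _ h3]
    group
  · intro i a ha
    have h3 : Act L i a a := ⟨ha, fun z _ => rfl⟩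
    have h4 : ∀ j, j ≠ i → Act L j a 1 := by
      intro j hj
      refine ⟨(L j).one_mem, fun z hz => ?_⟩
      have := hF.comm i j (Ne.symm hj) a ha z hz
      rw [this]
      group
    refine ⟨h2 i a a h3, fun j => ?_, fun j hj => h2 j a 1 (h4 j hj)⟩
    by_cases hj : j = i
    · subst hj
      exact ⟨a, h3⟩
    · exact ⟨1, h4 j hj⟩
  · intro c hc
    have h3 : ∀ i, Act L i c 1 := by
      intro i
      refine ⟨(L i).one_mem, fun z hz => ?_⟩
      rw [hc i z hz]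
      group
    exact ⟨fun i => ⟨1, h3 i⟩, fun i => h2 i c 1 (h3 i)⟩
  · intro i j x hx g hg
    refine ⟨fun k => ?_, h2 j _ _ (AC_conj hx (h1 i g hg))⟩
    obtain ⟨l, hl⟩ := AC_perm hF x k
    exact ⟨_, AC_conj hl (h1 l g hg)⟩
  · intro i g hg
    constructor
    · intro h z hz
      have h3 := (h1 i g hg).2 z hz
      rw [h] at h3
      have h4 : g * z = (g * z * g⁻¹) * g := by group
      rw [h4, h3]
      group
    · intro h
      refine h2 i g 1 ⟨(L i).one_mem, fun z hz => ?_⟩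
      rw [h z hz]
      group

end LEQ
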